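import Pool.Agent.Helper50.RM.I

/-!
# MP_4546c4_nt: almost all fractions with denominator `q` have many representations

A representation of `x` is an infinite set `A` of positive integers with `∑_{a ∈ A} a / 2 ^ a = x`
(`IsRep`, in `Pool/Agent/Helper50/RM/C.lean`).  All but at most `18 q / (log q) ^ (1 / 60)` of the
fractions `p / q`, `p = 0, 1, …, 2 q`, have at least `(log q) ^ (1 / 60)` representations.
-/

namespace Pool.Agent.Results.MP_4546c4_nt.AlmostAllFractions

open Finset Pool.Agent.Helper50.RM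

theorem result (q : ℕ) (hq : 2 ≤ q) :
    (((range (2 * q + 1)).filter (fun p : ℕ =>
      ¬ ((⌈Real.log q ^ (1 / 60 : ℝ)⌉₊ : ℕ∞) ≤
        {A : Set ℕ | IsRep ((p : ℝ) / q) A}.encard))).card : ℝ) ≤
      18 * q / Real.log q ^ (1 / 60 : ℝ) :=
  fractions_log q hq

end Pool.Agent.Results.MP_4546c4_nt.AlmostAllFractions
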