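import Pool.Agent.Helper50.RM.G

/-!
# MP_4546c4_nt: almost every real number has continuum many representations

A representation of `x` is an infinite set `A` of positive integers with `∑_{a ∈ A} a / 2 ^ a = x`
(`IsRep`, in `Pool/Agent/Helper50/RM/C.lean`).  The set of the numbers in `(0, 2)` with continuum
many representations contains a `G_δ` set of full Lebesgue measure; so almost every number in
`(0, 2)`, in the sense of measure and in the sense of category, has continuum many representations.
-/

namespace Pool.Agent.Results.MP_4546c4_nt.AlmostAllReals

open MeasureTheory Pool.Agent.Helper50.RM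

theorem result : ∃ G : Set ℝ, IsGδ G ∧ G ⊆ Set.Ioo 0 2 ∧ volume (Set.Ioo (0 : ℝ) 2 \ G) = 0 ∧
    ∀ x ∈ G, Cardinal.mk {A : Set ℕ // IsRep x A} = Cardinal.continuum :=
  gdelta_continuum

end Pool.Agent.Results.MP_4546c4_nt.AlmostAllReals
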