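import Pool.Agent.Helper74.LC.Final2

/-!
# MP_4546c4_nt: representations of a rational number are periodic and isolated, or of high complexity
-/

set_option autoImplicit false

open Filter

namespace Pool.Agent.Results.MP_4546c4_nt.DensityAndEntropy

open Pool.Agent.Helper74.LC

/-- Let `A` be a representation of a rational number `x`. Either `A` is eventually periodic (of positive lower density) and isolated among
the representations of `x`, or `A` is far from all sets of low complexity: it has at least `2 ^ (L / 2)` blocks of length `L` for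
all `L`, `A` and its complement have lower density at least `0.11`, and for every set `B` with
`log (cplx B ℓ) + ℓ H(β) < ℓ log 2 / 2` for some `ℓ` and `β ≤ 1/2` the symmetric difference of `A` and `B` has lower density at
least `β`. -/
theorem result : ∀ (x : ℚ) (A : Set ℕ), IsRep x A →
    (EvPer A ∧ PosLow A ∧
      ∃ N : ℕ, ∀ A' : Set ℕ, IsRep x A' → (∀ n, n ≤ N → (n ∈ A' ↔ n ∈ A)) → A' = A) ∨
    ((∀ L : ℕ, 2 ^ L ≤ cplx A L ^ 2) ∧ LowDens A (11 / 100) ∧ LowDens Aᶜ (11 / 100) ∧
      ∀ (B : Set ℕ) (ℓ : ℕ) (β : ℝ), 0 ≤ β → β ≤ 1 / 2 →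
        Real.log (cplx B ℓ) + ℓ * Real.binEntropy β < ℓ * Real.log 2 / 2 →
          LowDens (symmDiff A B) β) := by
  intro x A hA
  rcases dichotomy hA with h | h
  · exact Or.inl ⟨h.1, rep_posLow hA, h.2⟩
  · exact Or.inr ⟨h.two_pow_le, h.lowDens.1, h.lowDens.2, h.posLow_diff⟩

end Pool.Agent.Results.MP_4546c4_nt.DensityAndEntropy
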