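import Pool.Agent.Helper50.RM.D

/-!
# MP_4546c4_nt: an open set of full measure with at least `m` representations

A representation of `x` is an infinite set `A` of positive integers with `∑_{a ∈ A} a / 2 ^ a = x`
(`IsRep`, in `Pool/Agent/Helper50/RM/C.lean`).  For every `m` there is an open subset of `(0, 2)` of
full Lebesgue measure all of whose points (in particular all of whose rational points) have at least
`m` representations: the exceptional set is contained in a closed null set.
-/

namespace Pool.Agent.Results.MP_4546c4_nt.OpenFullMeasure

open MeasureTheory Pool.Agent.Helper50.RM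

theorem result (m : ℕ) : ∃ O : Set ℝ, IsOpen O ∧ O ⊆ Set.Ioo 0 2 ∧
    volume (Set.Ioo (0 : ℝ) 2 \ O) = 0 ∧
    ∀ x ∈ O, (m : ℕ∞) ≤ {A : Set ℕ | IsRep x A}.encard :=
  open_full m

end Pool.Agent.Results.MP_4546c4_nt.OpenFullMeasure
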